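import Pool.Agent.H20.Ray2

set_option autoImplicit false

open Set MeasureTheory Pool.Agent.H20.Ray

namespace Pool.Agent.Results.MP_113557_an.Counter

theorem result :
    ∃ (f : EuclideanSpace ℝ (Fin 2) → ℝ) (P : Set (EuclideanSpace ℝ (Fin 2))),
      Measurable f ∧ (∃ C : ℝ, ∀ x, |f x| ≤ C) ∧ (∃ R : ℝ, ∀ x, R < ‖x‖ → f x = 0) ∧
      P.Infinite ∧
      (∀ p ∈ P, ∀ u : EuclideanSpace ℝ (Fin 2), ‖u‖ = 1 →
        IntegrableOn (fun t : ℝ => f (p + t • u)) (Ioi 0) ∧
          ∫ t in Ioi (0 : ℝ), f (p + t • u) = 0) ∧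
      ¬ (∀ᵐ x ∂(volume : Measure (EuclideanSpace ℝ (Fin 2))), f x = 0) := by
  obtain ⟨g, a, gm, ai, gb, gs, gp, gz⟩ := exists_g
  set f : EuclideanSpace ℝ (Fin 2) → ℝ :=
    fun x => g (x 0 * (x 1)⁻¹, (x 1)⁻¹) * ((x 1)⁻¹) ^ 2 with hf
  have fm : Measurable f := by
    have m0 : Measurable fun x : EuclideanSpace ℝ (Fin 2) => x 0 := by fun_prop
    have m1 : Measurable fun x : EuclideanSpace ℝ (Fin 2) => (x 1)⁻¹ := by fun_prop
    exact (gm.comp ((m0.mul m1).prodMk m1)).mul (m1.pow_const 2)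
  have fb : ∀ x, |f x| ≤ 64 := fun x => by
    rw [hf, abs_mul, abs_of_nonneg (sq_nonneg ((x 1)⁻¹))]
    exact gb (x 0 * (x 1)⁻¹, (x 1)⁻¹)
  have fs : ∀ x, f x ≠ 0 → 0 < x 1 ∧ ‖x‖ ≤ 2 := fun x hx => by
    obtain ⟨a1, a2⟩ := gs _ (left_ne_zero_of_mul hx)
    simp only at a1 a2
    have p1 : 0 < (x 1)⁻¹ := by linarith
    have p2 : 0 < x 1 := inv_pos.1 p1
    have p3 : x 1 ≤ 1 := ((one_le_inv_iff₀).1 a1).2
    rw [abs_mul, abs_of_pos p1, mul_le_iff_le_one_left p1, abs_le] at a2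
    refine ⟨p2, ?_⟩
    rw [EuclideanSpace.norm_eq, Real.sqrt_le_left (by norm_num)]
    simp only [Fin.sum_univ_two, Real.norm_eq_abs, sq_abs]
    nlinarith [a2.1, a2.2]
  refine ⟨f, range fun n => EuclideanSpace.single 0 (a n), fm, ⟨64, fb⟩,
    ⟨2, fun x hx => by by_contra h; linarith [(fs x h).2]⟩,
    infinite_range_of_injective fun n m e => ai (by simpa using congrArg (fun x => x 0) e),
    ?_, fun h => ?_⟩
  · rintro p ⟨n, hp⟩ u hu
    replace hp : p = EuclideanSpace.single 0 (a n) := hp.symm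
    constructor
    · have m : Measurable fun t : ℝ => f (p + t • u) := fm.comp (by fun_prop)
      have i1 : IntegrableOn (fun t : ℝ => f (p + t • u)) (Icc 0 (‖p‖ + 2)) :=
        Measure.integrableOn_of_bounded (M := 64) measure_Icc_lt_top.ne m.aestronglyMeasurable
          (Filter.Eventually.of_forall fun t => fb _)
      refine i1.of_forall_sdiff_eq_zero measurableSet_Ioi fun t ht => ?_
      by_contra h
      have a1 := (fs _ h).2
      have a2 : (0 : ℝ) < t := ht.1
      have a3 := norm_sub_le (p + t • u) p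
      rw [add_sub_cancel_left, norm_smul, hu, mul_one, Real.norm_eq_abs, abs_of_pos a2] at a3
      exact ht.2 ⟨a2.le, by linarith⟩
    · rcases le_or_gt (u 1) 0 with h | h
      · refine setIntegral_eq_zero_of_forall_eq_zero fun t ht => ?_
        by_contra h'
        have a1 := (fs _ h').1
        have a2 : (0 : ℝ) < t := ht
        simp [hp] at a1
        nlinarith
      · refine Eq.trans ?_ (ray (fun p hp => (gs p hp).1) h (gz n (u 0 / u 1)))
        refine setIntegral_congr_fun measurableSet_Ioi fun t ht => ?_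
        have a2 : (0 : ℝ) < t := ht
        have e0 : (p + t • u) 0 = a n + t * u 0 := by simp [hp]
        have e1 : (p + t • u) 1 = u 1 * t := by simp [hp, mul_comm]
        show g ((p + t • u) 0 * ((p + t • u) 1)⁻¹, ((p + t • u) 1)⁻¹) * (((p + t • u) 1)⁻¹) ^ 2 = _
        rw [e0, e1]
        congr 3
        field_simp
        ring
  · have hU : IsOpen {x : EuclideanSpace ℝ (Fin 2) | |x 0| < x 1 ∧ 1 / 2 < x 1 ∧ x 1 < 1} := by
      simp only [ofPred_and]
      refine IsOpen.inter ?_ (IsOpen.inter ?_ ?_) <;> exact isOpen_lt (by fun_prop) (by fun_prop)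
    refine (hU.measure_pos volume ⟨EuclideanSpace.single 1 (2 / 3), by norm_num⟩).ne'
      (measure_mono_null (fun x hx => ?_) h)
    obtain ⟨a1, a2, a3⟩ := hx
    have p2 : 0 < x 1 := by linarith
    have p3 : (x 1)⁻¹ < 2 := by rw [inv_lt_comm₀ p2 (by norm_num)]; linarith
    have p4 : 1 < (x 1)⁻¹ := (one_lt_inv₀ p2).2 a3
    have p5 : |x 0 * (x 1)⁻¹| < 1 := by
      rw [abs_mul, abs_of_pos (inv_pos.2 p2), ← div_eq_mul_inv, div_lt_one p2]; exact a1
    have p6 : |2 * (x 1)⁻¹ - 3| < 1 := abs_lt.2 ⟨by linarith, by linarith⟩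
    show ¬ f x = 0
    simp only [hf]
    rw [gp _ p3]
    exact (mul_pos (mul_pos (lt_max_of_lt_right (by linarith)) (lt_max_of_lt_right (by linarith)))
      (by positivity)).ne'

end Pool.Agent.Results.MP_113557_an.Counter
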